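import Pool.Agent.Helper77.PPS.GoalsH

/-!
# Project PP (MP_fc6b1e_nt), part A3, packet H_MER: the fields `mers`, `mern`
-/

namespace Pool.Agent.Helper74.PPS

open Pool.Agent.Helper77.PPS
open Pool.Agent.Helper17.PP (Sys)

theorem h_mer (h1 : Pool.Agent.Helper77.PPS.P_CNT) : Pool.Agent.Helper77.PPS.H_MER := by
  classical
  intro C κ
  obtain ⟨C₁, hC₁, hcnt⟩ := h1 C
  refine ⟨2 * C + 2 * C₁, ?_⟩
  intro p B B₀ k U Λ W _ _ _ _ _ _ S A hP hA m n hm hmn
  obtain ⟨hc, -, -, -⟩ := hcnt B S.N hP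
  have hn : 1 ≤ n := hm.trans hmn
  have hlog2 : 0 < Real.log 2 := Real.log_pos (by norm_num)
  have hlog2' : (1 : ℝ) / 2 ≤ Real.log 2 := by
    have := Real.log_two_gt_d9
    linarith
  have h2m : (2 : ℝ) ≤ 2 ^ m := by
    calc (2 : ℝ) = 2 ^ 1 := (pow_one _).symm
      _ ≤ 2 ^ m := pow_le_pow_right₀ (by norm_num) hm
  have h2n : (2 : ℝ) ≤ 2 ^ n := by
    calc (2 : ℝ) = 2 ^ 1 := (pow_one _).symm
      _ ≤ 2 ^ n := pow_le_pow_right₀ (by norm_num) hn
  have hmR : (0 : ℝ) < m := by exact_mod_cast hm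
  have hnR : (0 : ℝ) < n := by exact_mod_cast hn
  have hn1 : (1 : ℝ) ≤ n := by exact_mod_cast hn
  have hll : ∀ i : ℕ, (0 : ℝ) < i → Real.log (Real.log (2 ^ i)) =
      Real.log i + Real.log (Real.log 2) := by
    intro i hi
    rw [Real.log_pow, Real.log_mul hi.ne' hlog2.ne']
  have hAn := abs_le.mp (hA _ h2n)
  have hAm := abs_le.mp (hA _ h2m)
  rw [hll n hnR] at hAn
  rw [hll m hmR] at hAm
  have hld : Real.log ((n : ℝ) / m) = Real.log n - Real.log m := Real.log_div hnR.ne' hmR.ne'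
  -- the third sum
  set E : Finset B := (pr S.N ((2 : ℝ) ^ n)).filter (fun q => S.N q = 2 ^ n) with hE
  have hEsum : ∑ q ∈ E, (1 : ℝ) / S.N q ≤ 2 * C₁ := by
    have e1 : ∑ q ∈ E, (1 : ℝ) / S.N q = ∑ q ∈ E, (1 : ℝ) / 2 ^ n := by
      apply Finset.sum_congr rfl
      intro q hq
      rw [hE, Finset.mem_filter] at hq
      rw [hq.2]
      norm_num
    rw [e1, Finset.sum_const, nsmul_eq_mul]
    have e2 : (E.card : ℝ) ≤ (pr S.N ((2 : ℝ) ^ n)).card :=
      Nat.cast_le.mpr (Finset.card_le_card (Finset.filter_subset _ _))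
    have e3 := hc _ h2n
    have e4 : (0 : ℝ) < 2 ^ n := by positivity
    have e5 : Real.log ((2 : ℝ) ^ n) = n * Real.log 2 := Real.log_pow _ _
    rw [e5] at e3
    have e6 : (1 : ℝ) / 2 ≤ n * Real.log 2 := by
      calc (1 : ℝ) / 2 ≤ 1 * Real.log 2 := by rw [one_mul]; exact hlog2'
        _ ≤ n * Real.log 2 := mul_le_mul_of_nonneg_right hn1 hlog2.le
    have e7 : (0 : ℝ) < n * Real.log 2 := by positivity
    calc (E.card : ℝ) * (1 / 2 ^ n) ≤ C₁ * (2 ^ n / (n * Real.log 2)) * (1 / 2 ^ n) :=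
          mul_le_mul_of_nonneg_right (e2.trans e3) (by positivity)
      _ = C₁ * (1 / (n * Real.log 2)) := by
          field_simp
      _ ≤ C₁ * 2 := by
          apply mul_le_mul_of_nonneg_left _ hC₁.le
          rw [div_le_iff₀ e7]
          linarith
      _ = 2 * C₁ := mul_comm _ _
  set T : Finset B := (S.below n).filter (fun q => q ∈ A ∧ m ≤ S.bl q) with hT
  have hind : ∀ x : ℝ, ms S.N (A.indicator fun _ ↦ 1) x =
      ∑ q ∈ (pr S.N x).filter (fun q => q ∈ A), (1 : ℝ) / S.N q := by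
    intro x
    rw [ms, Finset.sum_filter]
    apply Finset.sum_congr rfl
    intro q _
    by_cases hq : q ∈ A
    · rw [Set.indicator_of_mem hq, if_pos hq]
    · rw [Set.indicator_of_notMem hq, if_neg hq, zero_div]
  have hnn : ∀ q : B, (0 : ℝ) ≤ 1 / S.N q := fun q => by positivity
  have hsub : (pr S.N ((2 : ℝ) ^ n)).filter (fun q => q ∈ A) ⊆
      ((pr S.N ((2 : ℝ) ^ m)).filter (fun q => q ∈ A) ∪ T) ∪ E := by
    intro q hq
    rw [Finset.mem_filter, mem_pr hP] at hq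
    obtain ⟨hq1, hq2⟩ := hq
    rw [Finset.mem_union, Finset.mem_union, Finset.mem_filter, mem_pr hP]
    by_cases c1 : (S.N q : ℝ) ≤ 2 ^ m
    · exact Or.inl (Or.inl ⟨c1, hq2⟩)
    · by_cases c2 : S.N q = 2 ^ n
      · refine Or.inr ?_
        rw [hE, Finset.mem_filter, mem_pr hP]
        exact ⟨hq1, c2⟩
      · refine Or.inl (Or.inr ?_)
        have c3 : S.N q ≤ 2 ^ n := by exact_mod_cast hq1
        have c4 : S.N q < 2 ^ n := lt_of_le_of_ne c3 c2
        have c5 : 2 ^ m ≤ S.N q := by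
          have : (2 : ℝ) ^ m < S.N q := not_le.mp c1
          have c6 : 2 ^ m < S.N q := by exact_mod_cast this
          exact c6.le
        have c0 : S.N q ≠ 0 := by
          have := S.two_le q
          omega
        rw [hT, Finset.mem_filter, Sys.below, Finset.mem_filter, Set.Finite.mem_toFinset]
        refine ⟨⟨c3, ?_⟩, hq2, ?_⟩
        · rw [Sys.bl]
          exact Nat.log_lt_of_lt_pow c0 c4
        · rw [Sys.bl]
          exact Nat.le_log_of_pow_le (by norm_num) c5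
  have hmain : ms S.N (A.indicator fun _ ↦ 1) ((2 : ℝ) ^ n) ≤
      ms S.N (A.indicator fun _ ↦ 1) ((2 : ℝ) ^ m) + ∑ q ∈ T, (1 : ℝ) / S.N q +
        ∑ q ∈ E, (1 : ℝ) / S.N q := by
    rw [hind, hind]
    have u1 := Finset.sum_le_sum_of_subset_of_nonneg (f := fun q => (1 : ℝ) / S.N q) hsub
      (fun q _ _ => hnn q)
    have hun : ∀ X Y : Finset B, ∑ q ∈ X ∪ Y, (1 : ℝ) / S.N q ≤
        ∑ q ∈ X, (1 : ℝ) / S.N q + ∑ q ∈ Y, (1 : ℝ) / S.N q := by
      intro X Y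
      have := Finset.sum_union_inter (s₁ := X) (s₂ := Y) (f := fun q => (1 : ℝ) / S.N q)
      have h3 : 0 ≤ ∑ q ∈ X ∩ Y, (1 : ℝ) / S.N q := Finset.sum_nonneg (fun q _ => hnn q)
      linarith
    have u2 := hun ((pr S.N ((2 : ℝ) ^ m)).filter (fun q => q ∈ A) ∪ T) E
    have u3 := hun ((pr S.N ((2 : ℝ) ^ m)).filter (fun q => q ∈ A)) T
    linarith
  rw [hld]
  have hfin : κ * (Real.log n - Real.log m) - (2 * C + 2 * C₁) ≤ ∑ q ∈ T, (1 : ℝ) / S.N q := by
    linarith [hAn.1, hAm.2]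
  convert hfin using 2

end Pool.Agent.Helper74.PPS
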